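import Mathlib

/-!
# Poisson homeomorphisms which do not lift to the symplectic groupoid

For the zero Poisson bracket on `ℝⁿ` the canonical integration is the cotangent bundle
`T*ℝⁿ = ℝⁿ × ℝⁿ`.  We give, for every `n ≥ 1`, a Poisson homeomorphism `φ` of `ℝⁿ` such that no
symplectic homeomorphism of `T*ℝⁿ` covers `φ`.
-/

open Set Filter Topology MeasureTheory
open scoped ContDiff

namespace Pool.Agent.Results.MP_bef951_gt.NoSymplecticLift

/-- The manifold `ℝⁿ`. -/
abbrev V (n : ℕ) : Type := Fin n → ℝ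

/-- The cotangent bundle `T*ℝⁿ = ℝⁿ × ℝⁿ`: the pair `(q, p)` is the covector `∑ pᵢ dqᵢ` at `q`,
and the bundle projection `t = π` is `(q, p) ↦ q`. -/
abbrev TV (n : ℕ) : Type := V n × V n

/-- The canonical symplectic form `∑ dpᵢ ∧ dqᵢ` of `T*ℝⁿ`. -/
def canForm (n : ℕ) (a b : TV n) : ℝ := ∑ i, (a.2 i * b.1 i - a.1 i * b.2 i)

/-- `ψₖ → φ` in the `C⁰` topology: uniformly on compact subsets. -/
def C0Tendsto {X : Type} [NormedAddCommGroup X] (ψ : ℕ → X ≃ₜ X) (φ : X ≃ₜ X) : Prop :=
  ∀ K : Set X, IsCompact K → TendstoUniformlyOn (fun k x => ψ k x) φ atTop K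

/-- `ψ` is a smooth diffeomorphism. -/
def IsDiffeo {X : Type} [NormedAddCommGroup X] [NormedSpace ℝ X] (ψ : X ≃ₜ X) : Prop :=
  ContDiff ℝ ∞ ψ ∧ ContDiff ℝ ∞ ψ.symm

/-- `φ` is a homeomorphism which is a `C⁰` limit of smooth diffeomorphisms.  For the zero Poisson
bracket every diffeomorphism is a Poisson diffeomorphism, so these are exactly the Poisson
homeomorphisms of `(ℝⁿ, 0)`. -/
def IsLimitOfDiffeos {n : ℕ} (φ : V n ≃ₜ V n) : Prop :=
  ∃ ψ : ℕ → V n ≃ₜ V n, (∀ k, IsDiffeo (ψ k)) ∧ C0Tendsto ψ φ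

/-- Symplectic diffeomorphisms of `T*ℝⁿ`. -/
def IsSymplecticDiffeo {n : ℕ} (ψ : TV n ≃ₜ TV n) : Prop :=
  IsDiffeo ψ ∧ ∀ z a b : TV n, canForm n (fderiv ℝ ψ z a) (fderiv ℝ ψ z b) = canForm n a b

/-- Symplectic homeomorphisms of `T*ℝⁿ`: homeomorphisms which are `C⁰` limits of symplectic
diffeomorphisms. -/
def IsSymplecticHomeo {n : ℕ} (Φ : TV n ≃ₜ TV n) : Prop :=
  ∃ ψ : ℕ → TV n ≃ₜ TV n, (∀ k, IsSymplecticDiffeo (ψ k)) ∧ C0Tendsto ψ Φ

/-! ### Symplectic diffeomorphisms preserve the volume -/

/-- the canonical form as a bilinear form -/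
def canB (n : ℕ) : LinearMap.BilinForm ℝ (TV n) :=
  LinearMap.mk₂ ℝ (canForm n)
    (fun a a' b => by
      simp only [canForm, Prod.fst_add, Prod.snd_add, Pi.add_apply, ← Finset.sum_add_distrib]
      exact Finset.sum_congr rfl fun i _ => by ring)
    (fun c a b => by
      simp only [canForm, Prod.smul_fst, Prod.smul_snd, Pi.smul_apply, smul_eq_mul,
        Finset.mul_sum]
      exact Finset.sum_congr rfl fun i _ => by ring)
    (fun a b b' => by
      simp only [canForm, Prod.fst_add, Prod.snd_add, Pi.add_apply, ← Finset.sum_add_distrib]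
      exact Finset.sum_congr rfl fun i _ => by ring)
    (fun c a b => by
      simp only [canForm, Prod.smul_fst, Prod.smul_snd, Pi.smul_apply, smul_eq_mul,
        Finset.mul_sum]
      exact Finset.sum_congr rfl fun i _ => by ring)

lemma canB_apply (n : ℕ) (a b : TV n) : canB n a b = canForm n a b := rfl

lemma canB_nondegenerate (n : ℕ) : (canB n).Nondegenerate := by
  have hskew : ∀ a b : TV n, canForm n a b = - canForm n b a := by
    intro a b
    simp only [canForm, ← Finset.sum_neg_distrib]
    exact Finset.sum_congr rfl fun i _ => by ring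
  have key : ∀ a : TV n, (∀ b, canForm n a b = 0) → a = 0 := by
    intro a h
    refine Prod.ext (funext fun i => ?_) (funext fun i => ?_)
    · have := h (0, Pi.single i 1)
      simp only [canForm, Pi.zero_apply, mul_zero, zero_sub, Finset.sum_neg_distrib,
        neg_eq_zero] at this
      rw [Finset.sum_eq_single i] at this
      · simpa using this
      · intro j _ hj
        simp [Pi.single_eq_of_ne hj]
      · intro hi
        exact absurd (Finset.mem_univ i) hi
    · have := h (Pi.single i 1, 0)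
      simp only [canForm, Pi.zero_apply, mul_zero, sub_zero] at this
      rw [Finset.sum_eq_single i] at this
      · simpa using this
      · intro j _ hj
        simp [Pi.single_eq_of_ne hj]
      · intro hi
        exact absurd (Finset.mem_univ i) hi
  refine ⟨fun a h => key a h, fun b h => key b fun a => ?_⟩
  rw [hskew]
  have := h a
  rw [canB_apply] at this
  rw [this, neg_zero]

lemma abs_det_of_symplectic {n : ℕ} (L : TV n →L[ℝ] TV n)
    (h : ∀ a b, canForm n (L a) (L b) = canForm n a b) : |L.det| = 1 := by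
  classical
  let b := Module.finBasis ℝ (TV n)
  have h1 : (canB n).comp (L : TV n →ₗ[ℝ] TV n) (L : TV n →ₗ[ℝ] TV n) = canB n := by
    ext a a' <;> simp [canB_apply, h]
  have h2 := congrArg (LinearMap.BilinForm.toMatrix b) h1
  rw [LinearMap.BilinForm.toMatrix_comp b b] at h2
  have h3 := congrArg Matrix.det h2
  rw [Matrix.det_mul, Matrix.det_mul, Matrix.det_transpose] at h3
  have h4 : (LinearMap.BilinForm.toMatrix b (canB n)).det ≠ 0 :=
    (LinearMap.BilinForm.nondegenerate_iff_det_ne_zero b).mp (canB_nondegenerate n)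
  have h5 : (LinearMap.toMatrix b b (L : TV n →ₗ[ℝ] TV n)).det = L.det := by
    rw [LinearMap.det_toMatrix]
  rw [h5] at h3
  have h6 : L.det * L.det = 1 := by
    have : (L.det * L.det - 1) * (LinearMap.BilinForm.toMatrix b (canB n)).det = 0 := by
      linear_combination h3
    rcases mul_eq_zero.mp this with h | h
    · linarith
    · exact absurd h h4
  have h7 : |L.det| * |L.det| = 1 := by rw [← abs_mul, h6, abs_one]
  nlinarith [abs_nonneg L.det]

lemma volume_image_of_symplectic {n : ℕ} {ψ : TV n ≃ₜ TV n} (hψ : IsSymplecticDiffeo ψ)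
    {A : Set (TV n)} (hA : MeasurableSet A) : volume (ψ '' A) = volume A := by
  have hd : ∀ x ∈ A, HasFDerivWithinAt ψ (fderiv ℝ ψ x) A x := fun x _ =>
    ((hψ.1.1.differentiable (by simp)).differentiableAt.hasFDerivAt).hasFDerivWithinAt
  have : (volume : Measure (TV n)).IsAddHaarMeasure := Measure.prod.instIsAddHaarMeasure _ _
  rw [← lintegral_abs_det_fderiv_eq_addHaar_image volume hA hd ψ.injective.injOn]
  have : ∀ x, ENNReal.ofReal |(fderiv ℝ ψ x).det| = 1 := by
    intro x
    rw [abs_det_of_symplectic _ (hψ.2 x)]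
    simp
  simp [this]

lemma volume_le_of_symplecticHomeo {n : ℕ} {Φ : TV n ≃ₜ TV n} (hΦ : IsSymplecticHomeo Φ)
    {A : Set (TV n)} (hA : IsCompact A) : volume A ≤ volume (Φ '' A) := by
  obtain ⟨ψ, hψ, hlim⟩ := hΦ
  refine le_of_forall_gt fun r hr => ?_
  obtain ⟨O, hAO, hO, hOr⟩ := Set.exists_isOpen_lt_of_lt (Φ '' A) r hr
  have hK : IsCompact (Φ '' A) := hA.image Φ.continuous
  obtain ⟨δ, hδ, hthick⟩ := hK.exists_thickening_subset_open hO hAO
  have hev := (Metric.tendstoUniformlyOn_iff.mp (hlim A hA)) δ hδ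
  obtain ⟨k, hk⟩ := hev.exists
  have hsub : ψ k '' A ⊆ O := by
    rintro _ ⟨x, hx, rfl⟩
    refine hthick (Metric.mem_thickening_iff.mpr ⟨Φ x, mem_image_of_mem _ hx, ?_⟩)
    rw [dist_comm]
    exact hk x hx
  calc volume A = volume (ψ k '' A) := (volume_image_of_symplectic (hψ k) hA.measurableSet).symm
    _ ≤ volume O := measure_mono hsub
    _ < r := hOr

/-! ### The singular homeomorphism of the line -/

/-- a closed subset `K` of `[0,1]` of positive measure and a smooth function `ρ ≥ 0` vanishing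
exactly on `K`, positive on the rational numbers and at least `1` outside `[-1, 2]` -/
lemma exists_rho : ∃ (K : Set ℝ) (ρ : ℝ → ℝ), IsCompact K ∧ K ⊆ Icc 0 1 ∧ 0 < volume K ∧
    ContDiff ℝ ∞ ρ ∧ (∀ x, 0 ≤ ρ x) ∧ (∀ x ∈ K, ρ x = 0) ∧ (∀ q : ℚ, 0 < ρ q) ∧
    (∀ x, x ≤ -1 → 1 ≤ ρ x) ∧ (∀ x, 2 ≤ x → 1 ≤ ρ x) := by
  have h0 : volume (range ((↑) : ℚ → ℝ)) = 0 := (countable_range _).measure_zero _
  obtain ⟨U, hQU, hU, hU1⟩ := Set.exists_isOpen_lt_of_lt (μ := volume)
    (range ((↑) : ℚ → ℝ)) 1 (by rw [h0]; exact one_pos)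
  obtain ⟨f, hfU, hf, hfr⟩ := hU.exists_contDiff_support_eq (n := ⊤)
  have hf0 : ∀ x, 0 ≤ f x := fun x => (hfr (mem_range_self x)).1
  refine ⟨Icc 0 1 \ U, fun x => f x + (Real.smoothTransition (-x) + Real.smoothTransition (x - 1)),
    isCompact_Icc.diff hU, sdiff_subset, ?_, ?_, ?_, ?_, ?_, ?_, ?_⟩
  · have h1 : volume (Icc (0 : ℝ) 1) ≤ volume (Icc 0 1 \ U) + volume U := by
      calc volume (Icc (0 : ℝ) 1) ≤ volume ((Icc 0 1 \ U) ∪ U) := measure_mono (by
              intro x hx
              by_cases hxU : x ∈ U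
              · exact Or.inr hxU
              · exact Or.inl ⟨hx, hxU⟩)
        _ ≤ _ := measure_union_le _ _
    rw [Real.volume_Icc, sub_zero, ENNReal.ofReal_one] at h1
    by_contra hcon
    have h2 : volume (Icc (0 : ℝ) 1 \ U) = 0 := by
      simpa using hcon
    rw [h2, zero_add] at h1
    exact absurd hU1 (not_lt.mpr h1)
  · have h1 : ContDiff ℝ ∞ (fun x : ℝ => Real.smoothTransition (-x)) :=
      Real.smoothTransition.contDiff.comp contDiff_neg
    have h2 : ContDiff ℝ ∞ (fun x : ℝ => Real.smoothTransition (x - 1)) :=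
      Real.smoothTransition.contDiff.comp (contDiff_id.sub contDiff_const)
    exact hf.add (h1.add h2)
  · intro x
    have := Real.smoothTransition.nonneg (-x)
    have := Real.smoothTransition.nonneg (x - 1)
    have := hf0 x
    positivity
  · rintro x ⟨⟨hx0, hx1⟩, hxU⟩
    have h1 : f x = 0 := by
      have : x ∉ Function.support f := by rw [hfU]; exact hxU
      simpa using this
    have h2 : Real.smoothTransition (-x) = 0 := Real.smoothTransition.zero_of_nonpos (by linarith)
    have h3 : Real.smoothTransition (x - 1) = 0 :=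
      Real.smoothTransition.zero_of_nonpos (by linarith)
    simp [h1, h2, h3]
  · intro q
    have h1 : (q : ℝ) ∈ Function.support f := by rw [hfU]; exact hQU (mem_range_self q)
    have h2 : 0 < f q := lt_of_le_of_ne (hf0 _) (Ne.symm h1)
    have h3 := Real.smoothTransition.nonneg (-(q : ℝ))
    have h4 := Real.smoothTransition.nonneg ((q : ℝ) - 1)
    simp only
    linarith
  · intro x hx
    have h1 : Real.smoothTransition (-x) = 1 := Real.smoothTransition.one_of_one_le (by linarith)
    have h4 := Real.smoothTransition.nonneg (x - 1)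
    have := hf0 x
    simp only
    linarith
  · intro x hx
    have h1 : Real.smoothTransition (x - 1) = 1 :=
      Real.smoothTransition.one_of_one_le (by linarith)
    have h4 := Real.smoothTransition.nonneg (-x)
    have := hf0 x
    simp only
    linarith

/-- a homeomorphism `h` of the line, limit of smooth diffeomorphisms `hₖ` (uniformly on compact
sets), and a compact set `K` of positive measure whose image `h(K)` is a null set -/
lemma exists_singular : ∃ (K : Set ℝ) (h : ℝ ≃ₜ ℝ) (g : ℕ → ℝ ≃ₜ ℝ), IsCompact K ∧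
    0 < volume K ∧ volume (h '' K) = 0 ∧
    (∀ k, ContDiff ℝ ∞ (g k) ∧ ContDiff ℝ ∞ (g k).symm) ∧
    ∀ k x, g k x = h x + x / (k + 1) := by
  obtain ⟨K, ρ, hK, hK01, hKpos, hρ, hρ0, hρK, hρQ, hρm, hρp⟩ := exists_rho
  have hρc : Continuous ρ := hρ.continuous
  let H : ℝ → ℝ := fun x => ∫ t in (0 : ℝ)..x, ρ t
  have hint : ∀ a b, IntervalIntegrable ρ volume a b := fun a b => hρc.intervalIntegrable a b
  have hHd : ∀ x, HasDerivAt H (ρ x) x := fun x =>
    intervalIntegral.integral_hasDerivAt_right (hint 0 x)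
      (hρc.stronglyMeasurableAtFilter _ _) hρc.continuousAt
  have hHc : Continuous H := continuous_iff_continuousAt.mpr fun x => (hHd x).continuousAt
  have hHsmooth : ContDiff ℝ ∞ H := by
    rw [contDiff_infty_iff_deriv]
    refine ⟨fun x => (hHd x).differentiableAt, ?_⟩
    have : deriv H = ρ := funext fun x => (hHd x).deriv
    rw [this]
    exact hρ
  have hHmono : StrictMono H := by
    intro a b hab
    have h1 : H b - H a = ∫ t in a..b, ρ t := by
      have := intervalIntegral.integral_add_adjacent_intervals (hint 0 a) (hint a b)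
      simp only [H]
      linarith
    have h2 : 0 < ∫ t in a..b, ρ t := by
      obtain ⟨q, hq1, hq2⟩ := exists_rat_btwn hab
      exact intervalIntegral.integral_pos hab hρc.continuousOn (fun x _ => hρ0 x)
        ⟨q, ⟨hq1.le, hq2.le⟩, hρQ q⟩
    linarith
  have hHtop : Tendsto H atTop atTop := by
    have hbound : ∀ x, 2 ≤ x → x - 2 ≤ H x := by
      intro x hx
      have h1 : H x - H 2 = ∫ t in (2 : ℝ)..x, ρ t := by
        have := intervalIntegral.integral_add_adjacent_intervals (hint 0 2) (hint 2 x)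
        simp only [H]
        linarith
      have h2 : ∫ t in (2 : ℝ)..x, (1 : ℝ) ≤ ∫ t in (2 : ℝ)..x, ρ t :=
        intervalIntegral.integral_mono_on hx (by simp) (hint 2 x) (fun t ht => hρp t ht.1)
      have h3 : H 0 < H 2 := hHmono (by norm_num)
      have h4 : H 0 = 0 := by simp [H]
      simp at h2
      linarith
    refine tendsto_atTop_mono' atTop ?_ (tendsto_atTop_add_const_right atTop (-2) tendsto_id)
    filter_upwards [eventually_ge_atTop (2 : ℝ)] with x hx
    have := hbound x hx
    simp only [id]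
    linarith
  have hHbot : Tendsto H atBot atBot := by
    have hbound : ∀ x, x ≤ -1 → H x ≤ x + 1 := by
      intro x hx
      have h1 : H (-1) - H x = ∫ t in x..(-1 : ℝ), ρ t := by
        have := intervalIntegral.integral_add_adjacent_intervals (hint 0 x) (hint x (-1))
        simp only [H]
        linarith
      have h2 : ∫ t in x..(-1 : ℝ), (1 : ℝ) ≤ ∫ t in x..(-1 : ℝ), ρ t :=
        intervalIntegral.integral_mono_on hx (by simp) (hint x (-1)) (fun t ht => hρm t ht.2)
      have h3 : H (-1) < H 0 := hHmono (by norm_num)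
      have h4 : H 0 = 0 := by simp [H]
      simp at h2
      linarith
    refine tendsto_atBot_mono' atBot ?_ (tendsto_atBot_add_const_right atBot 1 tendsto_id)
    filter_upwards [eventually_le_atBot (-1 : ℝ)] with x hx
    have := hbound x hx
    simp only [id]
    linarith
  let h : ℝ ≃ₜ ℝ := (hHmono.orderIsoOfSurjective H (hHc.surjective hHtop hHbot)).toHomeomorph
  have hh : ∀ x, h x = H x := fun x => rfl
  let G : ℕ → ℝ → ℝ := fun k x => H x + x / (k + 1)
  have hpos : ∀ k : ℕ, (0 : ℝ) < 1 / (k + 1) := fun k => by positivity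
  have hGd : ∀ k x, HasDerivAt (G k) (ρ x + 1 / (k + 1)) x := fun k x =>
    (hHd x).add ((hasDerivAt_id x).div_const _)
  have hGmono : ∀ k, StrictMono (G k) := by
    intro k a b hab
    have h1 := hHmono hab
    have h2 : a / ((k : ℝ) + 1) < b / ((k : ℝ) + 1) := by gcongr
    simp only [G]
    linarith
  have hGc : ∀ k, Continuous (G k) := fun k => hHc.add (continuous_id.div_const _)
  have hlin : ∀ k : ℕ, Tendsto (fun x : ℝ => x / ((k : ℝ) + 1)) atTop atTop := fun k =>
    tendsto_id.atTop_div_const (by positivity)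
  have hlin' : ∀ k : ℕ, Tendsto (fun x : ℝ => x / ((k : ℝ) + 1)) atBot atBot := fun k =>
    tendsto_id.atBot_div_const (by positivity)
  have hGsurj : ∀ k, Function.Surjective (G k) := fun k =>
    (hGc k).surjective (hHtop.atTop_add_atTop (hlin k)) (hHbot.atBot_add_atBot (hlin' k))
  let g : ℕ → ℝ ≃ₜ ℝ := fun k => ((hGmono k).orderIsoOfSurjective (G k) (hGsurj k)).toHomeomorph
  have hg : ∀ k x, g k x = G k x := fun k x => rfl
  have hGsmooth : ∀ k, ContDiff ℝ ∞ (G k) := fun k => hHsmooth.add (contDiff_id.div_const _)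
  refine ⟨K, h, g, hK, hKpos, ?_, ?_, ?_⟩
  · have himg : (h : ℝ → ℝ) '' K = H '' K := rfl
    rw [himg]
    refine addHaar_image_eq_zero_of_det_fderivWithin_eq_zero volume
      (f' := fun x => ContinuousLinearMap.toSpanSingleton ℝ (ρ x))
      (fun x _ => (hHd x).hasFDerivAt.hasFDerivWithinAt) ?_
    intro x hx
    rw [hρK x hx]
    simp
  · intro k
    refine ⟨hGsmooth k, ?_⟩
    refine (g k).contDiff_symm_deriv (f' := fun x => ρ x + 1 / (k + 1)) ?_ ?_ (hGsmooth k)
    · intro x
      have := hρ0 x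
      have := hpos k
      positivity
    · intro x
      exact hGd k x
  · intro k x
    rfl

/-! ### Extension to `ℝⁿ` -/

/-- the homeomorphism of `ℝⁿ` acting by `h` on the coordinate `i` -/
def ext {n : ℕ} (i : Fin n) (h : ℝ ≃ₜ ℝ) : V n ≃ₜ V n where
  toFun x := Function.update x i (h (x i))
  invFun x := Function.update x i (h.symm (x i))
  left_inv x := by simp
  right_inv x := by simp
  continuous_toFun := continuous_id.update i (h.continuous.comp (continuous_apply i))
  continuous_invFun := continuous_id.update i (h.symm.continuous.comp (continuous_apply i))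

lemma ext_apply_same {n : ℕ} (i : Fin n) (h : ℝ ≃ₜ ℝ) (x : V n) : ext i h x i = h (x i) := by
  simp [ext]

lemma contDiff_update {n : ℕ} (i : Fin n) {h : ℝ → ℝ} (hh : ContDiff ℝ ∞ h) :
    ContDiff ℝ ∞ (fun x : V n => Function.update x i (h (x i))) := by
  rw [contDiff_pi]
  intro j
  by_cases hj : j = i
  · subst hj
    simp only [Function.update_self]
    exact hh.comp (contDiff_apply ℝ ℝ j)
  · simp only [Function.update_of_ne hj]
    exact contDiff_apply ℝ ℝ j

/-- For every `n ≥ 1` there is a homeomorphism `φ` of `ℝⁿ`, a `C⁰` limit of diffeomorphisms, such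
that no symplectic homeomorphism `Φ` of `T*ℝⁿ` satisfies `π ∘ Φ = φ ∘ π`. -/
theorem result (n : ℕ) (hn : 0 < n) :
    ∃ φ : V n ≃ₜ V n, IsLimitOfDiffeos φ ∧
      ∀ Φ : TV n ≃ₜ TV n, IsSymplecticHomeo Φ → ¬ ∀ z : TV n, Prod.fst (Φ z) = φ (Prod.fst z) := by
  classical
  obtain ⟨K, h, g, hK, hKpos, hKnull, hg, hgh⟩ := exists_singular
  let i : Fin n := ⟨0, hn⟩
  refine ⟨ext i h, ⟨fun k => ext i (g k), fun k => ⟨contDiff_update i (hg k).1,
    contDiff_update i (hg k).2⟩, ?_⟩, ?_⟩
  · intro L hL
    rw [Metric.tendstoUniformlyOn_iff]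
    intro ε hε
    obtain ⟨C, hC⟩ := hL.isBounded.exists_norm_le
    have h1 : Tendsto (fun k : ℕ => (|C| + 1) / ((k : ℝ) + 1)) atTop (𝓝 0) := by
      have := (tendsto_one_div_add_atTop_nhds_zero_nat (𝕜 := ℝ)).const_mul (|C| + 1)
      simpa [div_eq_mul_inv] using this
    filter_upwards [h1.eventually (gt_mem_nhds hε)] with k hk x hx
    refine lt_of_le_of_lt ((dist_pi_le_iff (by positivity)).mpr fun j => ?_) hk
    by_cases hj : j = i
    · subst hj
      rw [ext_apply_same, ext_apply_same, hgh, Real.dist_eq]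
      have h2 : h (x i) - (h (x i) + x i / ((k : ℝ) + 1)) = -(x i / ((k : ℝ) + 1)) := by ring
      rw [h2, abs_neg, abs_div, abs_of_pos (by positivity : (0 : ℝ) < (k : ℝ) + 1)]
      have h3 : |x i| ≤ C := by
        have := norm_le_pi_norm x i
        rw [Real.norm_eq_abs] at this
        exact this.trans (hC x hx)
      gcongr
      have := le_abs_self C
      linarith
    · have h2 : ext i h x j = x j := Function.update_of_ne hj _ _
      have h3 : ext i (g k) x j = x j := Function.update_of_ne hj _ _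
      rw [h2, h3, dist_self]
      positivity
  · intro Φ hΦ hlift
    let A1 : Set (V n) := Set.univ.pi (fun j => if j = i then K else Icc 0 1)
    let A2 : Set (V n) := Set.univ.pi (fun _ => Icc 0 1)
    have hA1 : IsCompact A1 := isCompact_univ_pi fun j => by
      by_cases hj : j = i <;> simp [hj, hK, isCompact_Icc]
    have hA2 : IsCompact A2 := isCompact_univ_pi fun j => isCompact_Icc
    have hle := volume_le_of_symplecticHomeo hΦ (hA1.prod hA2)
    have hpos : 0 < volume (A1 ×ˢ A2) := by
      have e : (volume : Measure (TV n)) = (volume : Measure (V n)).prod volume := rfl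
      rw [e, Measure.prod_prod]
      refine ENNReal.mul_pos ?_ ?_
      · rw [volume_pi_pi]
        refine Finset.prod_ne_zero_iff.mpr fun j _ => ?_
        by_cases hj : j = i
        · simp [hj, hKpos.ne']
        · simp [hj]
      · rw [volume_pi_pi]
        simp
    have hsub : Φ '' (A1 ×ˢ A2) ⊆ ((fun x : V n => x i) ⁻¹' (h '' K)) ×ˢ univ := by
      rintro _ ⟨z, ⟨hz1, -⟩, rfl⟩
      refine ⟨?_, mem_univ _⟩
      have h1 : (Φ z).1 i = h (z.1 i) := by rw [hlift z, ext_apply_same]
      have h2 : z.1 i ∈ K := by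
        have := hz1 i (mem_univ i)
        simpa using this
      exact ⟨z.1 i, h2, h1.symm⟩
    have hnull : volume (((fun x : V n => x i) ⁻¹' (h '' K)) ×ˢ (univ : Set (V n))) = 0 := by
      have e : (volume : Measure (TV n)) = (volume : Measure (V n)).prod volume := rfl
      rw [e, Measure.prod_prod]
      have h1 : volume ((fun x : V n => x i) ⁻¹' (h '' K)) = 0 :=
        (Measure.quasiMeasurePreserving_eval (fun _ => volume) i).preimage_null hKnull
      rw [h1, zero_mul]
    have : volume (A1 ×ˢ A2) ≤ 0 := by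
      calc volume (A1 ×ˢ A2) ≤ volume (Φ '' (A1 ×ˢ A2)) := hle
        _ ≤ _ := measure_mono hsub
        _ = 0 := hnull
    exact absurd hpos (not_lt.mpr this)

end Pool.Agent.Results.MP_bef951_gt.NoSymplecticLift
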